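import Pool.Agent.Helper85.GL.MinDeg
import Pool.Agent.Helper85.GL.Hull

/-!
The structure of the graphons of least rectilinear crossing density among the graphons with a given
integral: minimum degree, and complete subsets of all measurable sets.
-/

namespace Pool.Agent.Results.MP_7bfbd3_co.CompleteSubsets

open MeasureTheory Set Pool.Agent.Helper8.GC

private theorem cd_smul (W : unitInterval → unitInterval → ℝ) (t : ℝ) :
    cd volume (fun x y => t * W x y) = t ^ 2 * cd volume W := by
  unfold cd
  simp only [Helper85.GL.cdf_smul]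
  rw [Real.mul_iInf_of_nonneg (sq_nonneg t)]

/-- The crossing density of a minimiser of positive mass is positive. -/
private theorem cd_pos {W : unitInterval → unitInterval → ℝ} (hW : IsGraphon W)
    (hp : 0 < mass volume W) : 0 < cd volume W := by
  by_contra hcon
  have h0 : cd volume W = 0 := le_antisymm (not_lt.1 hcon) (Helper85.GL.cd_nonneg hW)
  have hg := Helper85.GL.isGraphon_smul hW (t := 1 / 2) (by norm_num) (by norm_num)
  have h := main_abstract (μ := volume) hasDensity_interval generic_interval hg
    (fun W' hW' _ => by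
      rw [cd_smul, h0, mul_zero]
      exact Helper85.GL.cd_nonneg hW')
  have hzero : ∀ᵐ e : unitInterval × unitInterval ∂(volume.prod volume), W e.1 e.2 = 0 := by
    filter_upwards [h] with e he
    have h1 := hW.le_one e.1 e.2
    rcases he with he | he <;> linarith
  have : mass volume W = 0 := by
    unfold mass
    rw [integral_congr_ae hzero]
    simp
  linarith

/-- Let `W` be a graphon of positive integral with the least rectilinear crossing density among
the graphons with the same integral. -/
theorem result (W : unitInterval → unitInterval → ℝ) (hW : IsGraphon W)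
    (hmin : ∀ W' : unitInterval → unitInterval → ℝ, IsGraphon W' →
      mass volume W' = mass volume W → cd volume W ≤ cd volume W')
    (hp : 0 < mass volume W) :
    0 < cd volume W ∧
    (∀ Δ : ℝ, (∀ᵐ x : unitInterval, ∫ y, W x y ≤ Δ) →
      (∀ᵐ x : unitInterval, cd volume W / (mass volume W * Δ) ≤ ∫ y, W x y) ∧
      ∃ T : Set unitInterval, MeasurableSet T ∧
        4 * (cd volume W / (mass volume W * Δ)) ≤ volume.real T ∧
        ∀ᵐ e : unitInterval × unitInterval, e.1 ∈ T → e.2 ∈ T → W e.1 e.2 = 1) ∧
    ∀ j : ℕ, (3 / 4) ^ j * mass volume W ^ 2 < 8 * cd volume W →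
      (∀ S : Set unitInterval, MeasurableSet S → ∃ T : Set unitInterval, MeasurableSet T ∧ T ⊆ S ∧
        volume.real S / 6 ^ j ≤ volume.real T ∧
        ∀ᵐ e : unitInterval × unitInterval, e.1 ∈ T → e.2 ∈ T → W e.1 e.2 = 1) ∧
      ∃ T : ℕ → Set unitInterval, (∀ i, MeasurableSet (T i)) ∧
        (∀ i i', i ≠ i' → Disjoint (T i) (T i')) ∧
        (∀ i, ∀ᵐ e : unitInterval × unitInterval, e.1 ∈ T i → e.2 ∈ T i → W e.1 e.2 = 1) ∧
        ∀ n, volume.real (⋃ i ∈ Finset.range n, T i)ᶜ ≤ (1 - 1 / 6 ^ j) ^ n := by
  have : Fact ((2 : ENNReal) ≠ ⊤) := ⟨by norm_num⟩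
  refine ⟨cd_pos hW hp, fun Δ hΔ => ⟨?_, ?_⟩, fun j hj => ⟨fun S hS => ?_, ?_⟩⟩
  · exact Helper85.GL.min_degree generic_interval hW hmin hp hΔ
  · exact Helper85.GL.big_clique generic_interval hW hmin hp hΔ
  · exact Helper85.GL.local_clique generic_interval hW hmin hp hj hS
  · exact Helper85.GL.cover generic_interval hW hmin hp hj

end Pool.Agent.Results.MP_7bfbd3_co.CompleteSubsets
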