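import Pool.Agent.Helper8.GC2.Pos

/-!
Graphons of least rectilinear crossing density with a given integral are edge expanders.
-/

namespace Pool.Agent.Results.MP_7bfbd3_co.EdgeExpansion

open MeasureTheory Set Pool.Agent.Helper8.GC Pool.Agent.Helper8.GC2

/-- Let `W` be a graphon of least rectilinear crossing density among the graphons with the
same integral `p > 0`. Then its crossing density `κ` is positive, and for every measurable set `A`
the integral of `W` over `A ×ˢ Aᶜ` is at least `7 / 8 * δ * min (|A|, |Aᶜ|, 4 δ)`, where
`δ = κ / p`. In particular `W` is connected. -/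
theorem result (W : unitInterval → unitInterval → ℝ) (hW : IsGraphon W)
    (hmin : ∀ W' : unitInterval → unitInterval → ℝ, IsGraphon W' →
      mass volume W' = mass volume W → cd volume W ≤ cd volume W')
    (hp : 0 < mass volume W) :
    0 < cd volume W ∧ ∀ A : Set unitInterval, MeasurableSet A →
      7 / 8 * (cd volume W / mass volume W *
        min (min (volume.real A) (volume.real Aᶜ)) (4 * (cd volume W / mass volume W))) ≤
      ∫ e in A ×ˢ Aᶜ, W e.1 e.2 ∂(volume.prod volume) :=
  ⟨cd_pos hasDensity_interval generic_interval hW hp, fun _ hA =>
    expansion generic_interval hW hmin hp hA⟩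

end Pool.Agent.Results.MP_7bfbd3_co.EdgeExpansion
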