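import Pool.Agent.Helper8.GC2.Ratio
import Pool.Agent.Helper8.GC2.CopInt

/-!
The infimum of `cd W / (mass W) ^ 3` over all graphons `W` of positive integral is the limit of the
normalised minima for small integrals, and it is not attained.
-/

namespace Pool.Agent.Results.MP_7bfbd3_co.RatioNotAttained

open MeasureTheory Set Filter Topology Pool.Agent.Helper8.GC Pool.Agent.Helper8.GC2

/-- Let `phi q` be the infimum of the rectilinear crossing densities of the graphons of integral
`q`. Then `phi q / q ^ 3` has a limit `L` as `q` tends to `0` from the right, and
`L * p ^ 3 < cd W` for every graphon `W` of integral `p > 0`. -/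
theorem result :
    ∃ L : ℝ, Tendsto (fun q : ℝ => phi (volume : Measure unitInterval) q / q ^ 3) (𝓝[>] 0) (𝓝 L) ∧
      ∀ W : unitInterval → unitInterval → ℝ, IsGraphon W → 0 < mass volume W →
        L * mass volume W ^ 3 < cd volume W :=
  limit_strict hasDensity_interval generic_interval hasCopies_interval

end Pool.Agent.Results.MP_7bfbd3_co.RatioNotAttained
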