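import Pool.Agent.Helper8.GC.Main

/-!
Minimisers of the rectilinear crossing density among the graphons with a given integral
are `{0,1}`-valued almost everywhere.
-/

namespace Pool.Agent.Results.MP_7bfbd3_co.ZeroOneMinimisers

open MeasureTheory Set Pool.Agent.Helper8.GC

theorem isGraphon_smul {W : unitInterval → unitInterval → ℝ} (hW : IsGraphon W) {t : ℝ}
    (h0 : 0 ≤ t) (h1 : t ≤ 1) : IsGraphon (fun x y => t * W x y) where
  measurable := hW.measurable.const_mul t
  symm x y := by rw [hW.symm x y]
  nonneg x y := mul_nonneg h0 (hW.nonneg x y)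
  le_one x y := mul_le_one₀ h1 (hW.nonneg x y) (hW.le_one x y)

theorem mass_smul (W : unitInterval → unitInterval → ℝ) (t : ℝ) :
    mass volume (fun x y => t * W x y) = t * mass volume W := by
  unfold mass
  rw [integral_const_mul]

theorem cdf_smul (W : unitInterval → unitInterval → ℝ) (t : ℝ) (f : unitInterval → ℝ × ℝ) :
    cdf volume (fun x y => t * W x y) f = t ^ 2 * cdf volume W f := by
  have h1 : cdf volume (fun x y => t * W x y) f =
      (1 / 8) * bil volume f (fun e => t * W e.1 e.2) (fun e => t * W e.1 e.2) := rfl
  rw [h1, bil_smul_left (u := fun e => W e.1 e.2), bil_smul_right (v := fun e => W e.1 e.2),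
    cdf_eq_bil]
  ring

theorem cd_smul (W : unitInterval → unitInterval → ℝ) (t : ℝ) :
    cd volume (fun x y => t * W x y) = t ^ 2 * cd volume W := by
  unfold cd
  simp only [cdf_smul]
  rw [Real.mul_iInf_of_nonneg (sq_nonneg t)]

/-- Let `W` be a graphon of least rectilinear crossing density among the graphons with the
same integral. Then `W` is `{0,1}`-valued almost everywhere, and for `0 < t < 1` (if the
integral of `W` is positive) some graphon of integral `t` times that of `W` has rectilinear
crossing density less than `t^2` times that of `W`. -/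
theorem result (W : unitInterval → unitInterval → ℝ) (hW : IsGraphon W)
    (hmin : ∀ W' : unitInterval → unitInterval → ℝ, IsGraphon W' →
      mass volume W' = mass volume W → cd volume W ≤ cd volume W') :
    (∀ᵐ e : unitInterval × unitInterval, W e.1 e.2 = 0 ∨ W e.1 e.2 = 1) ∧
      ∀ t : ℝ, 0 < t → t < 1 → 0 < mass volume W →
        ∃ W' : unitInterval → unitInterval → ℝ, IsGraphon W' ∧
          mass volume W' = t * mass volume W ∧ cd volume W' < t ^ 2 * cd volume W := by
  refine ⟨main_abstract hasDensity_interval generic_interval hW hmin, ?_⟩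
  intro t ht0 ht1 hpos
  by_contra hcon
  push_neg at hcon
  have hg := isGraphon_smul hW ht0.le ht1.le
  have h := main_abstract (μ := volume) hasDensity_interval generic_interval hg
    (fun W' hW' hm => by
      rw [cd_smul]
      rw [mass_smul] at hm
      exact hcon W' hW' hm)
  have hzero : ∀ᵐ e : unitInterval × unitInterval ∂(volume.prod volume), W e.1 e.2 = 0 := by
    filter_upwards [h] with e he
    rcases he with he | he
    · exact (mul_eq_zero.1 he).resolve_left ht0.ne'
    · exfalso
      have h1 := hW.le_one e.1 e.2
      have h2 : t * W e.1 e.2 ≤ t * 1 := mul_le_mul_of_nonneg_left h1 ht0.le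
      linarith
  have : mass volume W = 0 := by
    unfold mass
    rw [integral_congr_ae hzero]
    simp
  linarith

end Pool.Agent.Results.MP_7bfbd3_co.ZeroOneMinimisers
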